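import Mathlib
import Pool.Agent.K3h30.ISO.CMTypes

/-!
# The formula of Beilinson and Bloch for all isotrivial abelian varieties of almost all slope types of
# all CM fields

`AllCMTypesConstant` (a starting file) proves the formula of Beilinson and Bloch for the CONSTANT
abelian varieties of almost all slope types of arbitrary CM fields, `IsotrivialTwists` proves it for
ALL ISOTRIVIAL abelian varieties `B` over global function fields (those which become isogenous to a
constant abelian variety over a finite extension; bad reduction is allowed) if the CM fields have
generic Galois groups. Here nothing is assumed about the Galois groups of the CM fields, and `B` is an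
arbitrary isotrivial abelian variety.

Let `K i` (`i` in a finite set) be CM fields of degree `2 g i`, pairwise independent: for `i ≠ k` and
all complex embeddings `φ` of `K i` and `ψ` of `K k` some automorphism of `ℂ` is the identity on
`φ (K i)` and the complex conjugation on `ψ (K k)` (no condition if there is only one field). Fix an
isomorphism `ν` of the algebraic closure of `ℚ_p` with `ℂ`. Let `M i` be a function with nonzero
integral values, all of which divide `n i`, on the complex embeddings of `K i`, invariant under complex
conjugation. A CM type `Φ i` of `K i`, `M i` and a real number `κ ≠ 0` prescribe the slopes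
`(a + κ M) / 2` (on `Φ i`) and `(a - κ M) / 2` (outside) of a Weil number for `p ^ a` in `K i`
(`HasType`; `M = 1`, `κ = a` is the ordinary case).

There are `2 ^ (∑ i, g i)` families of CM types `Φ i`. A family is exceptional
(`exceptionalFamilies ν K M`) if the following is not always true. Let `π i` be Weil numbers for
`q = p ^ a` that generate the fields `K i` and have the slope types `Φ i`, `M i`, and let `f i` be monic
polynomials whose complex roots are conjugates of `π i`. Let `A` be an abelian variety over the field
with `q` elements which is isogenous to a product of powers of abelian varieties with characteristic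
polynomials `f i`. Let `B` be an abelian variety over the function field `k` of any curve over the field
with `q₀` elements which becomes isogenous to `A_k'` over a finite Galois extension `k'` of `k` with
`q₀ ^ N = q ^ s` constants (`s`, `N` arbitrary). Suppose that each eigenvalue `ρ` of Frobenius on the
first cohomology of the curve `C'` of `k'` is either the product of a root of unity and the `s`-th power
of a root of one of the `f i`, or unrelated to the fields `K i` (`CurveEigen`; for instance all curves
`C'` whose genus is less than all `g i` are permitted if the `K i` are generic, see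
`AllCMTypesConstant`). Then, with the objects `Wt` (Weil group), `pl` (places of `k`), `RV` and `RW`
(first cohomology of `B` and of `C'`) explained in `IsotrivialTwists`, for all codimensions
`i = k + 1 ≥ 1`: **the Euler product of `L (H ^ (2 i - 1) (B), s)` over all places, with the invariants
of inertia at the places of bad reduction, converges for `Re s > i + 1 / 2`, has a meromorphic
continuation, and the order of the continuation at `s = i` is the dimension of the space of the
classes in `H ^ (2 i - 1) (B) ⊗ H ^ 1 (C')` which are linear combinations of products of `i - 1` classes
of divisors and a correspondence, and on which the Weil group acts through `q₀ ^ (i deg)`**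
(`BeilinsonBloch`). By theorems of Tate and Kahn this dimension is that of `CH ^ i (B)_0`.

The theorem bounds the number of the exceptional families: it is at most
`2 ^ (∑ i, g i) * ∑ i, C * (n i) ^ 2 * rate (K i) (g i) (q i)`, with an absolute constant `C`. Here
`q i` is any prime factor of `g i` (or `q i = 1`), and `rate K g q` is `(1 + log (2 g)) ^ 16` times
the smaller of the numbers `W (K) / √g` and `√g / q`, where (`WeightEstimate`, the second part)
`W (K) ≤ N ^ 2 * D ^ (1 / 4)`; `N` is the number of the CM subfields of `K` (with `K`) and `D` is the
largest degree of a CM subfield of `K` that is normal over `ℚ` with a nonabelian Galois group (`D = 1`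
if there are none). So the exceptional types are a proportion `O (n ^ 2 * g ^ (-1 / 4) * (log g) ^ 16)`
of all types of all CM fields with a bounded number of CM subfields, and
`O (n ^ 2 * g ^ (-1 / 2) * (log g) ^ 16)` if the normal nonabelian ones have bounded degrees.

The proof combines the counting theorem of `AllCMTypesConstant` (`Y1.BB`, `Y1.CT`: a family that is not
exceptional has only the trivial relations, also with the eigenvalues of `C'`) with the Euler product of
isotrivial abelian varieties (`K3h30.ISO`).
-/

set_option autoImplicit false

namespace Pool.Agent.Results.MP_0b9e0b_ag.AllCMTypesIsotrivial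

open NumberField Module Pool.Agent.H204R3.CM Pool.Agent.H977R3.CM Pool.Agent.TH170
  Pool.Agent.Y1.KN Pool.Agent.Y1.CT Pool.Agent.Y1.BB Pool.Agent.K3h30.ISO

/-- The exceptional families of CM types: those for which the formula of Beilinson and Bloch does not
always hold, for isotrivial abelian varieties whose Frobenius eigenvalues over an extension are powers
of conjugates of Weil numbers with the slope types `Φ i`, `M i`. -/
def exceptionalFamilies {p : ℕ} [Fact p.Prime] (ν : PadicAlgCl p ≃+* ℂ) {I : Type} (K : I → Type)
    [∀ i, Field (K i)] [∀ i, NumberField (K i)] [∀ i, IsCMField (K i)]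
    (M : ∀ i, (K i →+* ℂ) → ℤ) : Set (∀ i, Set (K i →+* ℂ)) :=
  {Φ | (∀ i, IsCMType (Φ i)) ∧ ¬ ForAllTypes ν K M (FormulaForTwistsOver K) Φ}

/-- **The formula of Beilinson and Bloch holds, in all codimensions, for the isotrivial abelian
varieties of almost all slope types of all CM fields.** -/
theorem result :
    (∃ C : ℝ, 0 ≤ C ∧ ∀ (p : ℕ) [Fact p.Prime] (ν : PadicAlgCl p ≃+* ℂ) (I : Type) [Fintype I]
      (K : I → Type) [∀ i, Field (K i)] [∀ i, NumberField (K i)] [∀ i, IsCMField (K i)]
      (M : ∀ i, (K i →+* ℂ) → ℤ) (n g q : I → ℕ), PairwiseIndep K →
      (∀ i φ, M i (ComplexEmbedding.conjugate φ) = M i φ) → (∀ i, n i ≠ 0) →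
      (∀ i φ, M i φ ∣ (n i : ℤ)) → (∀ i, finrank ℚ (K i) = 2 * g i) →
      (∀ i, q i ∣ g i ∧ (q i = 1 ∨ (q i).Prime)) →
      ((exceptionalFamilies ν K M).ncard : ℝ) ≤
        2 ^ (∑ i, g i) * ∑ i, C * (n i : ℝ) ^ 2 * rate (K i) (g i) (q i)) ∧
    WeightEstimate := by
  obtain ⟨C, hC0, hC⟩ := ncard_of_unrel_norm
  refine ⟨⟨C, hC0, ?_⟩, weight_estimate_holds⟩
  intro p _ ν I _ K _ _ _ M n g q hind hM hn hMn hg hq
  exact hC p ν I K M n g q hind hM hn hMn hg hq _ fun Q f hQ hw hR => twists_of_noRel hQ hw hR

end Pool.Agent.Results.MP_0b9e0b_ag.AllCMTypesIsotrivial
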