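import Mathlib
import Pool.Agent.K3h30.ISO.Almost

/-!
# The formula of Beilinson and Bloch for isotrivial abelian varieties over function fields

The starting files prove the formula for the CONSTANT abelian varieties `A_K` over global function
fields `K`, for several classes of abelian varieties `A` over finite fields. Here we treat all
ISOTRIVIAL abelian varieties `B` over `K`, that is, those which become isogenous to a constant abelian
variety over some finite extension `K'` of `K` (all twisted forms of constant abelian varieties and
of their products and powers, Weil restrictions of constant abelian varieties, and so on). Such a `B`
is in general not constant and has places of bad reduction, where the Euler factors are those of the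
inertia invariants.

**The setting.** `K` is the function field of a curve `C` over the field with `q` elements (`q` is
`p ^ a` in part 1 and `q₀` in part 2), `K'` is a finite Galois extension of `K` such that `B` is
isogenous over `K'` to a constant abelian variety; the field of constants of `K'` may be larger, with
`q ^ N` elements. Let `K''` be the compositum of `K'` and an algebraic closure of the constants.
`Wt` is the Weil group of `K` modulo the absolute Galois group of `K''`, and `δ : Wt → ℤ` is the degree
(the geometric Frobenius has degree one). So `δ` is surjective, and its kernel is a finite geometric
Galois group. The set `X` is the set of the places of `K''`, that is, of the points of the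
covering curve `C'`; the group `Wt` acts on it. The places `v` of `K` are the orbits (`Places`:
representatives `pt v`, and elements `frob v` of the decomposition group of `pt v` of the smallest
positive degree `deg v`); the inertia group is the group `inertia δ (pt v)` of the elements of
degree zero that fix `pt v`. `W` is the first cohomology of `C'` (coefficients extended to the complex
numbers, as for `V`). `IsCovering` lists the facts that are used: the theorem of Weil on the
eigenvalues of the elements of positive degree on `W`, and the formula of Lefschetz: an element `w` of
degree `m > 0` is the Frobenius of a form of `C'` over the field with `q ^ m` elements, it has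
`1 + q ^ m - trace (w | W)` fixed points. `V` is the first cohomology of `B`, a representation of
the absolute Galois group of `K`; since `B` is isotrivial it is a representation of `Wt`, and an
element `w₀` of degree `N` acts as the Frobenius endomorphism of the constant abelian variety over the
field with `q ^ N` elements; it is semisimple (Weil).

The cohomology of degree `2 k + 1` of `B` is the exterior power `⋀ ^ (2 k + 1) V`. So for all
codimensions `i = k + 1 ≥ 1` the L-function `L (H ^ (2 i - 1) (B), s)` is the product over ALL places
`v` of `K` of the factors `det (1 - q ^ (- s deg v) Frob_v | (⋀ ^ (2 k + 1) V) ^ (I_v))⁻¹`; this is
`(pl.frobDet (extRep RV (2 * k + 1)) v ((q ^ (-s)) ^ deg v))⁻¹`.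

**The formula** (`BeilinsonBloch q pl RV RW k`). The product converges for `Re s > i + 1 / 2`, it has a
meromorphic continuation to the complex plane, and the order of the continuation at `s = i` is
the dimension of `algebraicClasses`. This is the space of the elements of
`H ^ (2 i - 1) (B) ⊗ H ^ 1 (C')` on which `Wt` acts through the degree, elements of degree `m` as
`q ^ (i m)` for all integers `m`, and which are linear combinations of products of `i - 1` classes of
divisors and a correspondence between the abelian variety and `C'` (`products`; the divisors and the
correspondence are defined over arbitrary finite extensions: by the theorem of Tate these are the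
linear combinations of classes which are multiplied by `q ^ m` by an element of some positive degree
`m`).

By the theorem of Kahn (based on Kimura, O'Sullivan, Soulé, Geisser) a motive of abelian type over a
finite field all of whose Tate classes are algebraic has no other cycles modulo rational
equivalence. So `CH ^ i (B_K')_0` is (over the coefficients) the space of the algebraic classes fixed
by the Frobenius `w₀`, and `CH ^ i (B)_0` is its subspace fixed by the group `Gal (K' / K)`: its
dimension is the dimension of `algebraicClasses`. So this is the formula of Beilinson and Bloch for
`B`, for all `i`.

**The theorem.** The formula holds in all codimensions for the isotrivial abelian varieties `B` over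
arbitrary global function fields in the following two cases.

1. `B` becomes isogenous to a constant abelian variety whose Frobenius eigenvalues are conjugates of
finitely many Weil numbers `π i` in CM fields `K i`, and supersingular numbers (in a set `S`, which
may be empty); any two embeddings of the fields `K i` that are different and not conjugate are
`Flipped` (generic Galois groups); `deg (K i) < 3 * spread`, where `spread` is the sum of the
`(2 * slope - 1) ^ 2` over the embeddings (for instance if the `p`-rank is larger than a third of the
dimension), and `deg (K i) < 2 * spread` if `S` is not empty. This includes all `B` that become
isogenous to products of elliptic curves.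

2. For ALMOST ALL isogeny classes of abelian varieties over finite fields, and ALL twisted forms of
all products of powers of them over ALL global function fields. Let `S i` be a set of characteristic
polynomials of degree `2 g i` between the ordinary ones and those of `p`-rank larger than a third of
`g i`. The families `f i` in `S i` for which `FormulaForTwists q f` fails are a proportion
`O (q ^ (-1 / 6) log q)`. `FormulaForTwists q f` says that the formula holds, in all codimensions, for
all abelian varieties `B` over all global function fields `K` (with `q₀` constants) which become
isogenous over a finite extension `K'` with `q₀ ^ N = q ^ s` constants to `A_K'`, for some abelian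
variety `A` over the field with `q` elements which is isogenous to a product of powers of abelian
varieties with characteristic polynomials `f i`.

**Proof.** The logarithmic coefficient of index `m` of the Euler product is the sum over the elements
`w` of degree `m` and their fixed points of `trace (w | ⋀ ^ n V)`, divided by the order of the finite
group `ker δ` (orbit counting; the sum over an inertia group projects onto its invariants). By the
formula of Lefschetz it is equal to `(1 + q ^ m) trace (w₁ ^ m | (⋀ ^ n V) ^ (ker δ)) -
trace (w₁ ^ m | (⋀ ^ n V ⊗ W) ^ (ker δ))`, with an element `w₁` of degree one. Any two
elements of the same degree have a common power, so that all elements of positive degree are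
semisimple with the expected weights. The algebraicity of the Tate classes for the Frobenius `w₀` is
that of the starting files (`W484.BB`, `W484.AA`).
-/

set_option autoImplicit false

namespace Pool.Agent.Results.MP_0b9e0b_ag.IsotrivialTwists

open NumberField Polynomial Module Pool.Agent.H194R3.CM Pool.Agent.W484.BB Pool.Agent.W484.AA
  Pool.Agent.W521.Descent Pool.Agent.W521.Count Pool.Agent.K3h30.ISO

/-- **The formula of Beilinson and Bloch for isotrivial abelian varieties over function fields.** -/
theorem result :
    -- 1. flipped Frobenius elements
    (∀ (p : ℕ) [Fact p.Prime] (a N : ℕ), 0 < a → 0 < N →
      ∀ (I : Type) [Finite I] (K : I → Type) [∀ i, Field (K i)] [∀ i, NumberField (K i)]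
        [∀ i, IsCMField (K i)] (π : ∀ i, K i) (S : Set ℂ), IsFlipped p (a * N) K π S →
      FormulaFor (p ^ a) N ({α | ∃ i, ∃ σ : K i →+* ℂ, α = σ (π i)} ∪ S)) ∧
    -- 2. almost all isogeny classes
    (∀ (I : Type) [Fintype I] (g : I → ℕ), (∀ i, 0 < g i) →
      ∃ C : ℝ, ∀ q : ℕ, IsPrimePow q → ∀ S : I → Set ℤ[X],
        (∀ i, ordinaryWeilPolys q (g i) ⊆ S i ∧ S i ⊆ largeRankWeilPolys q (g i)) →
        (∀ i, (S i).Finite ∧ (S i).Nonempty) ∧
        ({f : I → ℤ[X] | (∀ i, f i ∈ S i) ∧ ¬ FormulaForTwists q f}.ncard : ℝ) ≤
          C * (Real.log q * (q : ℝ) ^ (-(1 / 6) : ℝ)) * ∏ i, ((S i).ncard : ℝ)) :=
  ⟨fun p _ a N ha hN _ _ K _ _ _ π S h => flipped p a ha N hN K π S h,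
    fun _ _ g hg => twists_count g hg⟩

end Pool.Agent.Results.MP_0b9e0b_ag.IsotrivialTwists
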