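import Mathlib
import Pool.Agent.K3h82.ISO.Main
import Pool.Agent.K3h82.ISO.Crit
import Pool.Agent.K3h68.BB.Angle

/-!
# The formula of Beilinson and Bloch for isotrivial varieties of abelian type without exotic relations

Let `k` be a function field with the field of constants `F` with `q = p ^ a` elements. We prove, in
all codimensions, the formula of Beilinson and Bloch for all **isotrivial varieties of abelian
type** over `k`, for which the Frobenius eigenvalues of the abelian variety satisfy no exotic
multiplicative relation (the abelian variety is neat; its slopes, its endomorphisms and its
supersingular part are arbitrary), if every Frobenius eigenvalue of the covering curve is a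
conjugate of a Weil number of the abelian variety up to a root of unity, or is apart from the fields
`K i` (for instance, of smaller degree, or in a linearly disjoint field), or is multiplicatively
independent of them. Nothing is supposed on the genus of the curve.

**The objects** (`Pool.Agent.K3h30.ISO`). Let `k'` be a finite Galois extension of `k`, `Wt` the Weil
group of `k` modulo the geometric Galois group of `k'`, `δ` its degree (the geometric Frobenius
has degree one), `X` the set of geometric points of the smooth projective curve `C'` with the function
field `k'` and `W` its first cohomology. `IsCovering` is the theorem of Weil and the formula of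
Lefschetz for `C'`. `Places` is the set of places of `k`: the orbits of `Wt` in `X`, with a
Frobenius element for each of them. `V` is the first cohomology of an abelian variety `B` over `k`
which over `k'` is isogenous to a constant one; the elements of degree `N` are `q ^ N`-Frobenius
elements.

**Varieties of abelian type** (`IsAbelianType`). Let `Y` be a smooth projective variety over `k` the
motive of which is, over some extension `k'` as above, a direct summand of a sum of twists of motives
of powers of `B` (we replace `B` by a power): products of curves and their quotients by finite groups,
Fermat varieties, Kummer varieties, Hilbert schemes of points of abelian surfaces, and all their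
twisted forms, such as families with the constant fibre `Y₀` and any monodromy group acting on
`Y₀` (bad reduction is allowed). `M` is the cohomology of `Y` of degree `2 k + 1`, and the maps `f j`
are given by correspondences: they embed it in the sum of the exterior powers
`⋀ ^ (2 κ j + 1) V (- (k - κ j))`. The case `M = ⋀ ^ (2 k + 1) V` is the one of `B` itself.

**The formula** (`FormulaOfType`). The Euler product of `L (H ^ (2 k + 1) (Y), s)`, over all places of
the function field, with the inertia invariants, converges for `Re s > k + 1 + 1 / 2`, it has a
meromorphic continuation, and the order of the continuation at `s = k + 1` is the dimension of the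
space `typeClasses` of classes in `H ^ (2 k + 1) (Y) ⊗ H ^ 1 (C')` on which the elements of degree `m` act
as `q ^ ((k + 1) m)` and which are algebraic: their images under the correspondences `f j` are
combinations of products of classes of divisors on `B` and a correspondence between `B` and `C'`. By
theorems of Tate, Soulé, Kahn, Kimura (these are not in Lean) its dimension is that of the Chow group
`CH ^ (k + 1) (Y)_0` with rational coefficients if all classes of this kind are algebraic.

**The condition on the abelian variety** (`IsGeneric`). An element `w₀` of some degree `N` has on `V`
eigenvalues which are supersingular (they are in the set `S`; a power is a power of `p`) or conjugates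
of Weil numbers `π i` for `q ^ N` in CM fields `K i`, with any multiplicities, such that

* the only multiplicative relations between the conjugates of the `π i` and `q` are the trivial ones
  (`MaximalAngleRank`; the second part of the theorem gives many explicit classes), or
* no `π i` is supersingular, the odd functions on the complex embeddings of `K i` form an irreducible
  representation and there are no nonzero equivariant maps between these representations
  (`OddIrreducible`, `Unrelated`), or
* no `π i` is supersingular, and each embedding can be exchanged with its complex conjugate by
  an automorphism which fixes the others (`HasFlips`).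

There is no condition on the slopes of the `π i` in the last two cases.

**The condition on the curve** (`IsAdmissible`). A positive power `ρ ^ m` of each eigenvalue `ρ` of
`w₀` on `W`

* is the `m`-th power of a conjugate of some `π i`, or
* for each `i` there are, for every embedding `φ` of `K i`, automorphisms (endomorphisms) of the field
  of complex numbers which fix `ρ ^ m` and conjugate `φ` (this is so if `ρ` is contained in a CM field
  that is independent of `K i`), or the odd functions on the embeddings of `K i` form an irreducible
  representation and the degree of `ρ ^ m` is smaller than the one of `K i`, or
* satisfies no multiplicative relation with the conjugates of the `π i` and `q`.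

**The criteria** (second part, by `helper68`). For Weil numbers `W i` which satisfy one of the
criteria `SlopeCriterion` on their slopes, in pairwise compatible CM fields, the first condition is
true.

The ideas. The eigenvalue relation of a class in `H ^ (2 k + 1) ⊗ H ^ 1 (C')` with an eigenvalue `ρ`
of the curve is a multiplicative relation between `2 k + 1` conjugates and `ρ`. If no two of them
are a conjugate pair and at most one is supersingular, then there are at least two conjugates of the
`π i`, and we show that such a relation does not exist (`no_rel`). So classes are combinations of
products with divisor classes, by induction.
-/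

set_option autoImplicit false

namespace Pool.Agent.Results.MP_0b9e0b_ag.MaximalAngleRank

open NumberField Module Pool.Agent.K3h82.ISO Pool.Agent.W527.TateRing

theorem result (p : ℕ) [Fact p.Prime] (a : ℕ) (ha : 0 < a) (N : ℕ) (hN : 0 < N)
    (I : Type) [Fintype I] :
    (∀ (K : I → Type) [∀ i, Field (K i)] [∀ i, NumberField (K i)] [∀ i, IsCMField (K i)]
      (π : ∀ i, K i), (∀ i, π i * IsCMField.complexConj (K i) (π i) = (p : K i) ^ (a * N)) →
      IsGeneric p (a * N) K π →
      ∀ S : Set ℂ, (∀ μ ∈ S, ∃ m : ℕ, 0 < m ∧ μ ^ (2 * m) = ((p : ℂ) ^ (a * N)) ^ m) →
      FormulaForAll (p ^ a) N ({α : ℂ | ∃ i, ∃ σ : K i →+* ℂ, α = σ (π i)} ∪ S)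
        {ρ : ℂ | IsAdmissible (p ^ (a * N)) π ρ}) ∧
    ∀ W : I → WeilNumber p (a * N), (∀ i, SlopeCriterion (W i)) →
      (∀ i i', i ≠ i' → Pool.Agent.H977R3.WN.CompatibleT (W i).K (W i').K) →
      (∀ i, (W i).π * IsCMField.complexConj (W i).K (W i).π = (p : (W i).K) ^ (a * N)) ∧
        IsGeneric p (a * N) (fun i => (W i).K) (fun i => (W i).π) := by
  refine ⟨?_, ?_⟩
  · intro K _ _ _ π hw hπ S hS Wt _ δ X _ P pl W _ _ _ RW hcov V _ _ _ RV w₀ hw₀ hV hW k M _ _ _
      RM J _ κ f hf
    exact generic p a ha N hN K π hw hπ S hS δ pl RW hcov RV w₀ hw₀ hV hW k RM κ f hf
  · intro W hW hc
    refine ⟨fun i => ?_, Or.inl ?_⟩
    · have hinj := (Classical.arbitrary ((W i).K →+* ℂ)).injective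
      apply hinj
      rw [map_mul, IsCMField.complexEmbedding_complexConj, Complex.mul_conj,
        Complex.normSq_eq_norm_sq, (W i).weil, map_pow, map_natCast]
      push_cast
      rfl
    · refine Pool.Agent.K3h68.BB.angle_of_neat (Nat.mul_pos ha hN) W (fun i => ?_) hc
      rcases hW i with h1 | h1
      · exact Or.inl h1
      · exact Or.inr (Or.inl h1)

end Pool.Agent.Results.MP_0b9e0b_ag.MaximalAngleRank
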